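import Pool.Agent.Helper205.RK.Data

set_option autoImplicit false

/-! Primitive recursiveness of `cntv`, `Legal`, and bounded quantifiers with parameters -/

namespace Pool.Agent.Helper880.RK

open Pool.Agent.Helper542.RK Pool.Agent.Helper205.QA

section

variable {α : Type*} [Primcodable α]

theorem prim_exists_mem {β : Type*} [Primcodable β] {l : α → List β} {R : α → β → Prop}
    (hl : Primrec l) (hR : PrimrecPred (fun p : α × β => R p.1 p.2)) :
    PrimrecPred (fun a => ∃ b ∈ l a, R a b) := by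
  have h1 : PrimrecRel (fun (b : β) (a : α) => R a b) :=
    PrimrecPred.comp hR (Primrec.pair Primrec.snd Primrec.fst)
  exact h1.exists_mem_list.comp hl Primrec.id

theorem prim_forall_mem {β : Type*} [Primcodable β] {l : α → List β} {R : α → β → Prop}
    (hl : Primrec l) (hR : PrimrecPred (fun p : α × β => R p.1 p.2)) :
    PrimrecPred (fun a => ∀ b ∈ l a, R a b) := by
  have h1 : PrimrecRel (fun (b : β) (a : α) => R a b) :=
    PrimrecPred.comp hR (Primrec.pair Primrec.snd Primrec.fst)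
  exact h1.forall_mem_list.comp hl Primrec.id

theorem prim_exists_lt {n : α → ℕ} {R : α → ℕ → Prop}
    (hn : Primrec n) (hR : PrimrecPred (fun p : α × ℕ => R p.1 p.2)) :
    PrimrecPred (fun a => ∃ b < n a, R a b) :=
  (prim_exists_mem (Primrec.list_range.comp hn) hR).of_eq (by simp)

theorem prim_forall_lt {n : α → ℕ} {R : α → ℕ → Prop}
    (hn : Primrec n) (hR : PrimrecPred (fun p : α × ℕ => R p.1 p.2)) :
    PrimrecPred (fun a => ∀ b < n a, R a b) :=
  (prim_forall_mem (Primrec.list_range.comp hn) hR).of_eq (by simp)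

theorem vis_iff (h : Hist) (d : Dt) (n x : ℕ) :
    vis (stOf h d) n x ↔ x < n ∧ (x ∈ Ulist h ∨ n ≤ zOf h x) := by
  simp [vis, stOf]

theorem prim_vis {h : α → Hist} {d : α → Dt} {n x : α → ℕ} (hh : Primrec h) (hn : Primrec n)
    (hx : Primrec x) : PrimrecPred (fun a => vis (stOf (h a) (d a)) (n a) (x a)) := by
  have h1 : PrimrecPred (fun a => x a < n a ∧ (x a ∈ Ulist (h a) ∨ n a ≤ zOf (h a) (x a))) :=
    (Primrec.nat_lt.comp hx hn).and
      ((prim_memU hh hx).or (Primrec.nat_le.comp hn (prim_zOf hh hx)))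
  exact h1.of_eq (fun a => (vis_iff _ _ _ _).symm)

theorem cntv_eq (h : Hist) (d : Dt) (n : ℕ) :
    cntv (stOf h d) n = ncount n (fun x => decide (x < n ∧ (x ∈ Ulist h ∨ n ≤ zOf h x))) := by
  rw [ncount_eq]
  unfold cntv
  congr 1
  ext x
  simp only [Finset.mem_filter, vis_iff, decide_eq_true_eq]

/-- `cntv` is primitive recursive -/
theorem prim_cntv' {h : α → Hist} {d : α → Dt} {n : α → ℕ} (hh : Primrec h) (hn : Primrec n) :
    Primrec (fun a => cntv (stOf (h a) (d a)) (n a)) := by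
  have h1 : PrimrecPred (fun p : α × ℕ =>
      p.2 < n p.1 ∧ (p.2 ∈ Ulist (h p.1) ∨ n p.1 ≤ zOf (h p.1) p.2)) :=
    (Primrec.nat_lt.comp Primrec.snd (hn.comp Primrec.fst)).and
      ((prim_memU (hh.comp Primrec.fst) Primrec.snd).or
        (Primrec.nat_le.comp (hn.comp Primrec.fst) (prim_zOf (hh.comp Primrec.fst) Primrec.snd)))
  have h3 : Primrec₂ (fun (a : α) (x : ℕ) =>
      decide (x < n a ∧ (x ∈ Ulist (h a) ∨ n a ≤ zOf (h a) x))) :=
    primrecPred_iff_primrec_decide.1 h1
  refine (prim_ncount hn h3).of_eq ?_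
  intro a
  rw [cntv_eq]

theorem prim_cntv : Primrec (fun p : (Hist × Dt) × ℕ => cntv (stOf p.1.1 p.1.2) p.2) :=
  prim_cntv' (Primrec.fst.comp Primrec.fst) Primrec.snd

theorem prim_even {n : α → ℕ} (hn : Primrec n) : PrimrecPred (fun a => Even (n a)) := by
  have h1 : PrimrecPred (fun a => n a % 2 = 0) :=
    Primrec.eq.comp (Primrec.nat_mod.comp hn (Primrec.const 2)) (Primrec.const 0)
  exact h1.of_eq (fun a => Nat.even_iff.symm)

/-- legality of the reply `e` -/
def LegalE (h : Hist) (a e : ℕ) : Prop :=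
  Even e ∧ e ∉ Mlist h ∧ (e < a → ∃ t, t ≤ e ∧ t < a ∧ (t ∈ Ulist h ∨ a ≤ zOf h t))

theorem prim_legalE {h : α → Hist} {a e : α → ℕ} (hh : Primrec h) (ha : Primrec a)
    (he : Primrec e) : PrimrecPred (fun x => LegalE (h x) (a x) (e x)) := by
  have h1 : PrimrecPred (fun x => ∃ t < e x + 1, t < a x ∧ (t ∈ Ulist (h x) ∨ a x ≤ zOf (h x) t)) := by
    refine prim_exists_lt (prim_succ he) ?_
    exact (Primrec.nat_lt.comp Primrec.snd (ha.comp Primrec.fst)).and
      ((prim_memU (hh.comp Primrec.fst) Primrec.snd).or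
        (Primrec.nat_le.comp (ha.comp Primrec.fst) (prim_zOf (hh.comp Primrec.fst) Primrec.snd)))
  have h2 : PrimrecPred (fun x => Even (e x) ∧ ¬ e x ∈ Mlist (h x) ∧
      (¬ e x < a x ∨ ∃ t < e x + 1, t < a x ∧ (t ∈ Ulist (h x) ∨ a x ≤ zOf (h x) t))) :=
    (prim_even he).and ((prim_memM hh he).not.and ((Primrec.nat_lt.comp he ha).not.or h1))
  refine h2.of_eq ?_
  intro x
  unfold LegalE
  constructor
  · rintro ⟨h1, h2, h3⟩
    refine ⟨h1, h2, fun hlt => ?_⟩
    rcases h3 with h3 | ⟨t, ht, h4⟩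
    · exact absurd hlt h3
    · exact ⟨t, by omega, h4⟩
  · rintro ⟨h1, h2, h3⟩
    refine ⟨h1, h2, ?_⟩
    by_cases hlt : e x < a x
    · obtain ⟨t, ht, h4⟩ := h3 hlt
      exact Or.inr ⟨t, by omega, h4⟩
    · exact Or.inl hlt

theorem prim_legal' {h : α → Hist} {a : α → ℕ} {r : α → Option ℕ} (hh : Primrec h)
    (ha : Primrec a) (hr : Primrec r) : PrimrecPred (fun x => Legal (h x) (a x) (r x)) := by
  classical
  have h1 : PrimrecPred (fun p : α × ℕ => LegalE (h p.1) (a p.1) p.2) :=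
    prim_legalE (hh.comp Primrec.fst) (ha.comp Primrec.fst) Primrec.snd
  have h2 : Primrec₂ (fun (x : α) (e : ℕ) => decide (LegalE (h x) (a x) e)) :=
    primrecPred_iff_primrec_decide.1 h1
  have h3 : Primrec (fun x => decide (Legal (h x) (a x) (r x))) := by
    refine (Primrec.option_casesOn hr (Primrec.const true) h2).of_eq ?_
    intro x
    cases hx : r x with
    | none => simp [Legal]
    | some e => simp [Legal, LegalE]
  exact primrecPred_iff_primrec_decide.2 h3

theorem prim_legal : PrimrecPred (fun p : Hist × ℕ × Option ℕ => Legal p.1 p.2.1 p.2.2) :=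
  prim_legal' Primrec.fst (Primrec.fst.comp Primrec.snd) (Primrec.snd.comp Primrec.snd)

end

end Pool.Agent.Helper880.RK
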